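import Pool.Agent.H80.MCR.CGP

/-!
Board mcr, row CGJ: the field `disj` of `Good` for the clone.
-/

set_option autoImplicit false

namespace Pool.MCR

theorem cgj_mem_newE {L : Type} {D : Diag L} {w x : ℕ} {r : ℕ → ℤ} {p : L ×ₗ ℤ}
    (h : p ∈ newE D w r x) : x ≠ w ∧ ((D.S w x = true ∧ p = lp (D.pos w) (- r x)) ∨
      ∃ c ∈ D.E w x, ∃ k : ℤ, (k = 1 ∨ k = -1) ∧ p = lp c k) := by
  unfold newE at h
  by_cases hx : x = w
  · rw [if_pos hx] at h
    exact absurd h List.not_mem_nil
  · rw [if_neg hx] at h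
    refine ⟨hx, ?_⟩
    rcases List.mem_append.1 h with h | h
    · left
      by_cases hs : D.S w x = true
      · rw [if_pos hs] at h
        exact ⟨hs, List.mem_singleton.1 h⟩
      · rw [if_neg hs] at h
        exact absurd h List.not_mem_nil
    · right
      exact cgp_mem_shift _ _ _ h

theorem cgj_thm (hKIT : KIT_S) (hKLT : KLT_S) : CGJ_S := by
  intro L _ n D w r hG hw hR
  have hEn : ∀ y, (clone D n w r).E n y = newE D w r y := fun y => if_pos rfl
  have hEn' : ∀ x, x < n → (clone D n w r).E x n = (newE D w r x).reverse := by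
    intro x hx
    show (if x = n then newE D w r n else if n = n then (newE D w r x).reverse
      else (D.E x n).map (fun c => lp c 0)) = _
    rw [if_neg (ne_of_lt hx), if_pos rfl]
  have hE : ∀ x y, x < n → y < n →
      (clone D n w r).E x y = (D.E x y).map (fun c => lp c 0) := by
    intro x y hx hy
    show (if x = n then newE D w r y else if y = n then (newE D w r x).reverse
      else (D.E x y).map (fun c => lp c 0)) = _
    rw [if_neg (ne_of_lt hx), if_neg (ne_of_lt hy)]
  obtain ⟨hK1, -, hK3⟩ := hKIT L n D hG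
  obtain ⟨-, -, hKtot, -, -⟩ := hKLT L (D.pos w)
  -- two new edges
  have hnn : ∀ a < n, ∀ b < n, ∀ c, c ∈ newE D w r a → c ∈ newE D w r b → a = b := by
    intro a ha b hb c hca hcb
    by_contra hab
    obtain ⟨haw, hca⟩ := cgj_mem_newE hca
    obtain ⟨hbw, hcb⟩ := cgj_mem_newE hcb
    rcases hca with ⟨hSa, hca⟩ | ⟨d, hd, k, hk, hca⟩
    · rcases hcb with ⟨hSb, hcb⟩ | ⟨e, he, k, hk, hcb⟩
      · rw [hca] at hcb
        have h1 := (cgp_lp_inj hcb).2
        have hna := (hK1 w hw a ha (Ne.symm haw)).2.1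
        have hnb := (hK1 w hw b hb (Ne.symm hbw)).2.1
        have hne := hK3 w hw a ha b hb (Ne.symm haw) (Ne.symm hbw) hab
        rcases hKtot _ _ hna hnb hne with h | h
        · have := hR.2 a ha b hb haw hbw hab hSa hSb h
          omega
        · have := hR.2 b hb a ha hbw haw (Ne.symm hab) hSb hSa h
          omega
      · rw [hca] at hcb
        rw [← (cgp_lp_inj hcb).1] at he
        exact hG.notin w hw b hb w hw (Ne.symm hbw) he
    · rcases hcb with ⟨hSb, hcb⟩ | ⟨e, he, k', hk', hcb⟩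
      · rw [hca] at hcb
        rw [(cgp_lp_inj hcb).1] at hd
        exact hG.notin w hw a ha w hw (Ne.symm haw) hd
      · rw [hca] at hcb
        rw [← (cgp_lp_inj hcb).1] at he
        rcases hG.disj w hw a ha w hw b hb (Ne.symm haw) (Ne.symm hbw) d hd he with h | h
        · exact hab h.2
        · exact hbw h.1.symm
  -- an old and a new edge
  have hon : ∀ x < n, ∀ y < n, ∀ b < n, ∀ c, c ∈ (D.E x y).map (fun c => lp c (0 : ℤ)) →
      c ∈ newE D w r b → False := by
    intro x _ y _ b _ c hc hcb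
    rw [List.mem_map] at hc
    obtain ⟨d, -, hc⟩ := hc
    have hr := hR.1 b
    rcases (cgj_mem_newE hcb).2 with ⟨-, h⟩ | ⟨e, -, k, hk, h⟩
    · rw [← hc] at h
      have := (cgp_lp_inj h).2
      omega
    · rw [← hc] at h
      have := (cgp_lp_inj h).2
      omega
  -- every edge is old or new
  have hcase : ∀ x < n + 1, ∀ y < n + 1, x ≠ y → ∀ c, c ∈ (clone D n w r).E x y →
      (x < n ∧ y < n ∧ c ∈ (D.E x y).map (fun c => lp c (0 : ℤ))) ∨
      (x = n ∧ y < n ∧ c ∈ newE D w r y) ∨ (y = n ∧ x < n ∧ c ∈ newE D w r x) := by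
    intro x hx y hy hxy c hc
    by_cases hxn : x = n
    · subst hxn
      have hy' : y < x := by omega
      rw [hEn] at hc
      exact Or.inr (Or.inl ⟨rfl, hy', hc⟩)
    · have hx' : x < n := by omega
      by_cases hyn : y = n
      · subst hyn
        rw [hEn' x hx', List.mem_reverse] at hc
        exact Or.inr (Or.inr ⟨rfl, hx', hc⟩)
      · have hy' : y < n := by omega
        rw [hE x y hx' hy'] at hc
        exact Or.inl ⟨hx', hy', hc⟩
  intro x hx y hy z hz t ht hxy hzt c hc1 hc2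
  rcases hcase x hx y hy hxy c hc1 with ⟨hx', hy', h1⟩ | ⟨hxn, hy', h1⟩ | ⟨hyn, hx', h1⟩
  · rcases hcase z hz t ht hzt c hc2 with ⟨hz', ht', h2⟩ | ⟨hzn, ht', h2⟩ | ⟨htn, hz', h2⟩
    · rw [List.mem_map] at h1 h2
      obtain ⟨d, hd, hdc⟩ := h1
      obtain ⟨e, he, hec⟩ := h2
      rw [← hec] at hdc
      rw [← (cgp_lp_inj hdc).1] at he
      exact hG.disj x hx' y hy' z hz' t ht' hxy hzt d hd he
    · exact (hon x hx' y hy' t ht' c h1 h2).elim
    · exact (hon x hx' y hy' z hz' c h1 h2).elim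
  · rcases hcase z hz t ht hzt c hc2 with ⟨hz', ht', h2⟩ | ⟨hzn, ht', h2⟩ | ⟨htn, hz', h2⟩
    · exact (hon z hz' t ht' y hy' c h2 h1).elim
    · left
      exact ⟨hxn.trans hzn.symm, hnn y hy' t ht' c h1 h2⟩
    · right
      exact ⟨hxn.trans htn.symm, hnn y hy' z hz' c h1 h2⟩
  · rcases hcase z hz t ht hzt c hc2 with ⟨hz', ht', h2⟩ | ⟨hzn, ht', h2⟩ | ⟨htn, hz', h2⟩
    · exact (hon z hz' t ht' x hx' c h2 h1).elim
    · right
      exact ⟨hnn x hx' t ht' c h1 h2, hyn.trans hzn.symm⟩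
    · left
      exact ⟨hnn x hx' z hz' c h1 h2, hyn.trans htn.symm⟩

end Pool.MCR
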